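import Pool.Agent.Helper98.DE.St3

/-!
# Project DE, module CUB: a vertex of degree 3 in a triangle
-/

set_option autoImplicit false

namespace Pool.Agent.Helper70.DE

open Pool.Agent.Helper98.DE
open Pool.Agent.Helper51.AJ (IsMinor Planar Apex ExMinor Con Tch)
open Pool.Agent.Helper12.NK (rst Kc cnt)
open Pool.Agent.Helper12.MA (dl ae Srv)

private theorem minor_mono' {W V : Type} (B : SimpleGraph W) (K H : SimpleGraph V) (h : K ≤ H) (hm : IsMinor B K) :
    IsMinor B H := by
  obtain ⟨φ, h1, h2, h3⟩ := hm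
  refine ⟨φ, fun w => ?_, h2, fun w w' hw => ?_⟩
  · refine (h1 w).mono ?_
    intro a b hab
    exact h hab
  · obtain ⟨x, hx, y, hy, hxy⟩ := h3 w w' hw
    exact ⟨x, hx, y, hy, h hxy⟩

private theorem planar_mono' {V : Type} (K H : SimpleGraph V) (h : K ≤ H) (hp : Planar H) : Planar K :=
  ⟨fun hm => hp.1 (minor_mono' _ K H h hm), fun hm => hp.2 (minor_mono' _ K H h hm)⟩

theorem hCUB : StPCI → StCRI → StSVB → StTRI → StCUB := by
  intro hPCI hCRI hSVB hTRI V _ G v x y t hcr hxy hvx hvy hn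
  obtain ⟨c1, c2, c3⟩ := hCRI V G hcr
  obtain ⟨s, hsx, hsy, hsp⟩ := c3 x y hxy
  have hvxne : v ≠ x := G.ne_of_adj hvx
  have hvyne : v ≠ y := G.ne_of_adj hvy
  have hsv : s = v := by
    by_contra hne
    have hsv' : v ≠ s := fun h => hne h.symm
    have j1 : (rst (dl G x y) {s}ᶜ).Adj v x :=
      ⟨⟨hvx, fun h => hvxne h.1, fun h => hvyne h.1⟩, hsv', hsx.symm⟩
    have j2 : (rst (dl G x y) {s}ᶜ).Adj v y :=
      ⟨⟨hvy, fun h => hvxne h.1, fun h => hvyne h.1⟩, hsv', hsy.symm⟩
    have hp := hTRI V (rst (dl G x y) {s}ᶜ) v x y t (G.ne_of_adj hxy) j1 j2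
      (fun a ha => hn a ha.1.1) hsp
    refine c1 s (planar_mono' _ _ ?_ hp)
    intro a b hab
    obtain ⟨h1, h2, h3⟩ := hab
    by_cases e1 : a = x ∧ b = y
    · right
      exact ⟨by rw [e1.1, e1.2]; exact G.ne_of_adj hxy, by tauto⟩
    · by_cases e2 : a = y ∧ b = x
      · right
        exact ⟨by rw [e2.1, e2.2]; exact (G.ne_of_adj hxy).symm, by tauto⟩
      · left
        exact ⟨⟨h1, e1, e2⟩, h2, h3⟩
  subst hsv
  have hsrv : Srv G s x y := ⟨hsx, hsy, hsp⟩
  refine ⟨hsrv, ?_⟩
  have hc : 5 ≤ Fintype.card V := by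
    rw [Nat.card_eq_fintype_card] at c2
    omega
  have h1 := (hSVB V G hc s x y hsrv).1
  obtain ⟨_, _, _, _, _, h6, h7⟩ := hPCI V G Finset.univ
  have h8 : dg G s ≤ 3 := by
    unfold dg
    have hsub : G.neighborSet s ⊆ {x, y, t} := by
      intro a ha
      rcases hn a ha with h | h | h
      · simp [h]
      · simp [h]
      · simp [h]
    calc (G.neighborSet s).ncard ≤ ({x, y, t} : Set V).ncard :=
          Set.ncard_le_ncard hsub (Set.toFinite _)
      _ ≤ 3 := by
          classical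
          have := Finset.card_le_three (a := x) (b := y) (c := t)
          rw [← Set.ncard_coe_finset] at this
          simpa using this
  omega

end Pool.Agent.Helper70.DE
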