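import Pool.Agent.Helper98.DE.St

/-!
# Project DE, module YB4: a vertex serves at most four edges at `z`
-/

set_option autoImplicit false

namespace Pool.Agent.Helper70.DE

open Pool.Agent.Helper98.DE
open Pool.Agent.Helper51.AJ (IsMinor Planar Apex ExMinor Con Tch)
open Pool.Agent.Helper12.NK (rst Kc cnt)
open Pool.Agent.Helper12.MA (dl Srv)

private theorem minor_mono {W V : Type} (B : SimpleGraph W) (K H : SimpleGraph V) (h : K ≤ H) (hm : IsMinor B K) :
    IsMinor B H := by
  obtain ⟨φ, h1, h2, h3⟩ := hm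
  refine ⟨φ, fun w => ?_, h2, fun w w' hw => ?_⟩
  · refine (h1 w).mono ?_
    intro a b hab
    exact h hab
  · obtain ⟨x, hx, y, hy, hxy⟩ := h3 w w' hw
    exact ⟨x, hx, y, hy, h hxy⟩

private theorem planar_mono {V : Type} (K H : SimpleGraph V) (h : K ≤ H) (hp : Planar H) : Planar K :=
  ⟨fun hm => hp.1 (minor_mono _ K H h hm), fun hm => hp.2 (minor_mono _ K H h hm)⟩

theorem hYB4 : StDG4 → StYB4 := by
  intro hD V _ G hG b z
  by_cases hzb : b = z
  · have : {y | G.Adj z y ∧ Srv G b z y} = ∅ := by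
      ext y
      simp only [Set.mem_ofPred_eq, Set.mem_empty_iff_false, iff_false]
      rintro ⟨_, h, _⟩
      exact h hzb
    rw [this]
    simp
  · obtain ⟨K, hK, hnp, c, hc⟩ := hD V (rst G {b}ᶜ) z (hG b)
    have hsub : {y | G.Adj z y ∧ Srv G b z y} ⊆ Set.range c := by
      rintro y ⟨_, hs⟩
      by_contra hy
      have hzy : ¬ K.Adj z y := fun h => by
        obtain ⟨j, hj⟩ := hc y h
        exact hy ⟨j, hj.symm⟩
      refine hnp (planar_mono K (rst (dl G z y) {b}ᶜ) ?_ hs.2.2)
      intro u v huv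
      obtain ⟨h1, h2, h3⟩ := hK u v huv
      refine ⟨⟨h1, ?_, ?_⟩, h2, h3⟩
      · rintro ⟨rfl, rfl⟩
        exact hzy huv
      · rintro ⟨rfl, rfl⟩
        exact hzy huv.symm
    calc {y | G.Adj z y ∧ Srv G b z y}.ncard ≤ (Set.range c).ncard :=
          Set.ncard_le_ncard hsub (Set.finite_range c)
      _ = (c '' Set.univ).ncard := by rw [Set.image_univ]
      _ ≤ (Set.univ : Set (Fin 4)).ncard := Set.ncard_image_le
      _ = 4 := by rw [Set.ncard_univ]; simp

end Pool.Agent.Helper70.DE
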